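import Pool.Agent.H56.RM.Cells2

/-! The lines of the family. -/

namespace Pool.Agent.H56.RM.D4

/-- the lines -/
def famC : List (ℤ × ℤ) := [
  (782, 7155635),
  (1202, 6725272),
  (1848, 6295135),
  (2842, 5865345),
  (4368, 5436088),
  (6711, 5007648),
  (10305, 4580460),
  (15809, 4155181),
  (24218, 3732807),
  (51373, 2720245),
  (53396, 2665586),
  (58673, 2554290),
  (65771, 2431947),
  (74057, 2311597),
  (83461, 2193906),
  (93717, 2081424),
  (103195, 1989142),
  (112505, 1907814),
  (121793, 1834386),
  (131055, 1767640),
  (140609, 1704505),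
  (150201, 1646075),
  (159772, 1592089),
  (169410, 1541545),
  (186277, 1459040),
  (201015, 1391585),
  (240814, 1220674),
  (250009, 1183536),
  (255890, 1161148),
  (262012, 1139136),
  (270935, 1108781),
  (278571, 1084166),
  (283973, 1067636),
  (295125, 1035210),
  (300255, 1021015),
  (311734, 990762),
  (317391, 976543),
  (328451, 950008),
  (356066, 886717),
  (359923, 878267),
  (366642, 864178),
  (378967, 839434),
  (389296, 819569),
  (398604, 802406),
  (410437, 781482),
  (422432, 761127),
  (436962, 737457),
  (451566, 714609),
  (457550, 705616),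
  (469631, 688165),
  (481255, 672024),
  (498755, 648660),
  (504346, 641481),
  (520598, 621406),
  (526514, 614377),
  (535438, 604171),
  (548179, 590152),
  (557059, 580749),
  (568792, 568792)]

/-- the shapes -/
def shapes : List Shp := [
  ⟨320000, -385662, 327500, -396753, 1151000, 1191000, 1⟩,
  ⟨271500, -316767, 305000, -363843, 1121000, 1331000, 1⟩,
  ⟨183500, -202728, 251000, -289016, 1108000, 1756000, 1⟩]

end Pool.Agent.H56.RM.D4
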