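import Pool.Agent.H56.RM.D4.C

/-! Lines 0 to 26. -/

namespace Pool.Agent.H56.RM.D4

open Pool.Agent.H56.RM Pool.Agent.H98.RM Pool.Agent.H34.RM

/-- line 0 -/
def l0 : Ln3 := ⟨782, 7155635, true, 0, 0, [], none, none⟩

/-- witnesses -/
def w0 : List Wk := []

theorem c0 : lineChk3 famC l0 = true := by decide +kernel

theorem k0 : cellsChk2 shapes l0.cs w0 = true := by decide +kernel

theorem p0 (hT : T3P Cert3P) (hS : ∀ x ∈ shapes, ShpOK x) : LineP famC 782 7155635 :=
  lineP_of_check c0 (cellsOK2 hT hS k0)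

/-- line 1 -/
def l1 : Ln3 := ⟨1202, 6725272, true, 0, 0, [], none, none⟩

/-- witnesses -/
def w1 : List Wk := []

theorem c1 : lineChk3 famC l1 = true := by decide +kernel

theorem k1 : cellsChk2 shapes l1.cs w1 = true := by decide +kernel

theorem p1 (hT : T3P Cert3P) (hS : ∀ x ∈ shapes, ShpOK x) : LineP famC 1202 6725272 :=
  lineP_of_check c1 (cellsOK2 hT hS k1)

/-- line 2 -/
def l2 : Ln3 := ⟨1848, 6295135, true, 0, 0, [], none, none⟩

/-- witnesses -/
def w2 : List Wk := []

theorem c2 : lineChk3 famC l2 = true := by decide +kernel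

theorem k2 : cellsChk2 shapes l2.cs w2 = true := by decide +kernel

theorem p2 (hT : T3P Cert3P) (hS : ∀ x ∈ shapes, ShpOK x) : LineP famC 1848 6295135 :=
  lineP_of_check c2 (cellsOK2 hT hS k2)

/-- line 3 -/
def l3 : Ln3 := ⟨2842, 5865345, true, 0, 0, [], none, none⟩

/-- witnesses -/
def w3 : List Wk := []

theorem c3 : lineChk3 famC l3 = true := by decide +kernel

theorem k3 : cellsChk2 shapes l3.cs w3 = true := by decide +kernel

theorem p3 (hT : T3P Cert3P) (hS : ∀ x ∈ shapes, ShpOK x) : LineP famC 2842 5865345 :=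
  lineP_of_check c3 (cellsOK2 hT hS k3)

/-- line 4 -/
def l4 : Ln3 := ⟨4368, 5436088, true, 0, 0, [], none, none⟩

/-- witnesses -/
def w4 : List Wk := []

theorem c4 : lineChk3 famC l4 = true := by decide +kernel

theorem k4 : cellsChk2 shapes l4.cs w4 = true := by decide +kernel

theorem p4 (hT : T3P Cert3P) (hS : ∀ x ∈ shapes, ShpOK x) : LineP famC 4368 5436088 :=
  lineP_of_check c4 (cellsOK2 hT hS k4)

/-- line 5 -/
def l5 : Ln3 := ⟨6711, 5007648, true, 0, 0, [], none, none⟩

/-- witnesses -/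
def w5 : List Wk := []

theorem c5 : lineChk3 famC l5 = true := by decide +kernel

theorem k5 : cellsChk2 shapes l5.cs w5 = true := by decide +kernel

theorem p5 (hT : T3P Cert3P) (hS : ∀ x ∈ shapes, ShpOK x) : LineP famC 6711 5007648 :=
  lineP_of_check c5 (cellsOK2 hT hS k5)

/-- line 6 -/
def l6 : Ln3 := ⟨10305, 4580460, true, 0, 0, [], none, none⟩

/-- witnesses -/
def w6 : List Wk := []

theorem c6 : lineChk3 famC l6 = true := by decide +kernel

theorem k6 : cellsChk2 shapes l6.cs w6 = true := by decide +kernel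

theorem p6 (hT : T3P Cert3P) (hS : ∀ x ∈ shapes, ShpOK x) : LineP famC 10305 4580460 :=
  lineP_of_check c6 (cellsOK2 hT hS k6)

/-- line 7 -/
def l7 : Ln3 := ⟨15809, 4155181, true, 0, 0, [], none, none⟩

/-- witnesses -/
def w7 : List Wk := []

theorem c7 : lineChk3 famC l7 = true := by decide +kernel

theorem k7 : cellsChk2 shapes l7.cs w7 = true := by decide +kernel

theorem p7 (hT : T3P Cert3P) (hS : ∀ x ∈ shapes, ShpOK x) : LineP famC 15809 4155181 :=
  lineP_of_check c7 (cellsOK2 hT hS k7)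

/-- line 8 -/
def l8 : Ln3 := ⟨24218, 3732807, true, 0, 0, [], none, none⟩

/-- witnesses -/
def w8 : List Wk := []

theorem c8 : lineChk3 famC l8 = true := by decide +kernel

theorem k8 : cellsChk2 shapes l8.cs w8 = true := by decide +kernel

theorem p8 (hT : T3P Cert3P) (hS : ∀ x ∈ shapes, ShpOK x) : LineP famC 24218 3732807 :=
  lineP_of_check c8 (cellsOK2 hT hS k8)

/-- line 9 -/
def l9 : Ln3 := ⟨51373, 2720245, false, 934138, 65859, [], some ⟨1000000, 103196, 3420930, [⟨16, false, 999893⟩, ⟨17, false, 107⟩], [⟨8, false, 16720⟩], ⟨386901624771000000, 4013668087000000, 127263096125000000, 2104402575379000000, 31051231851000000, 3487602240359000000⟩⟩, none⟩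

/-- witnesses -/
def w9 : List Wk := []

theorem c9 : lineChk3 famC l9 = true := by decide +kernel

theorem k9 : cellsChk2 shapes l9.cs w9 = true := by decide +kernel

theorem p9 (hT : T3P Cert3P) (hS : ∀ x ∈ shapes, ShpOK x) : LineP famC 51373 2720245 :=
  lineP_of_check c9 (cellsOK2 hT hS k9)

/-- line 10 -/
def l10 : Ln3 := ⟨53396, 2665586, false, 930438, 69559, [], some ⟨1000000, 121793, 3083044, [⟨18, false, 1000000⟩], [⟨9, false, 7417204⟩], ⟨377542343408000000, 5698039843000000, 126687127497000000, 2108956180003000000, 43995124194000000, 3145593379590000000⟩⟩, none⟩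

/-- witnesses -/
def w10 : List Wk := []

theorem c10 : lineChk3 famC l10 = true := by decide +kernel

theorem k10 : cellsChk2 shapes l10.cs w10 = true := by decide +kernel

theorem p10 (hT : T3P Cert3P) (hS : ∀ x ∈ shapes, ShpOK x) : LineP famC 53396 2665586 :=
  lineP_of_check c10 (cellsOK2 hT hS k10)

/-- line 11 -/
def l11 : Ln3 := ⟨58673, 2554290, false, 922249, 77748, [], some ⟨1000000, 145687, 2832342, [⟨20, false, 470601⟩, ⟨21, false, 529399⟩], [⟨10, false, 5371425⟩], ⟨369531477097000000, 7832322335000000, 133736207043000000, 2056728091824000000, 56914650855000000, 2894524845904000000⟩⟩, none⟩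

/-- witnesses -/
def w11 : List Wk := []

theorem c11 : lineChk3 famC l11 = true := by decide +kernel

theorem k11 : cellsChk2 shapes l11.cs w11 = true := by decide +kernel

theorem p11 (hT : T3P Cert3P) (hS : ∀ x ∈ shapes, ShpOK x) : LineP famC 58673 2554290 :=
  lineP_of_check c11 (cellsOK2 hT hS k11)

/-- line 12 -/
def l12 : Ln3 := ⟨65771, 2431947, false, 912131, 87866, [], some ⟨986876, 169411, 2618512, [⟨23, false, 999941⟩, ⟨24, false, 59⟩], [⟨11, false, 5457339⟩], ⟨363138724598000000, 10654277583000000, 152170102353000000, 1906875261428000000, 67673206709000000, 2726710733749000000⟩⟩, none⟩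

/-- witnesses -/
def w12 : List Wk := []

theorem c12 : lineChk3 famC l12 = true := by decide +kernel

theorem k12 : cellsChk2 shapes l12.cs w12 = true := by decide +kernel

theorem p12 (hT : T3P Cert3P) (hS : ∀ x ∈ shapes, ShpOK x) : LineP famC 65771 2431947 :=
  lineP_of_check c12 (cellsOK2 hT hS k12)

/-- line 13 -/
def l13 : Ln3 := ⟨74057, 2311597, false, 900894, 99103, [], some ⟨1000000, 200467, 2464857, [⟨24, false, 37183⟩, ⟨25, false, 962817⟩], [⟨12, false, 6318732⟩], ⟨355693900210000000, 14539949882000000, 171103252255000000, 1791707568966000000, 81559374764000000, 2546926538193000000⟩⟩, none⟩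

/-- witnesses -/
def w13 : List Wk := []

theorem c13 : lineChk3 famC l13 = true := by decide +kernel

theorem k13 : cellsChk2 shapes l13.cs w13 = true := by decide +kernel

theorem p13 (hT : T3P Cert3P) (hS : ∀ x ∈ shapes, ShpOK x) : LineP famC 74057 2311597 :=
  lineP_of_check c13 (cellsOK2 hT hS k13)

/-- line 14 -/
def l14 : Ln3 := ⟨83461, 2193906, false, 888516, 111481, [], some ⟨999999, 233405, 2299780, [⟨25, false, 186161⟩, ⟨26, false, 813839⟩], [⟨13, false, 7070087⟩], ⟨348474852407000000, 19091078626000000, 189242258890000000, 1683787855115000000, 96111393814000000, 2389918242838000000⟩⟩, none⟩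

/-- witnesses -/
def w14 : List Wk := []

theorem c14 : lineChk3 famC l14 = true := by decide +kernel

theorem k14 : cellsChk2 shapes l14.cs w14 = true := by decide +kernel

theorem p14 (hT : T3P Cert3P) (hS : ∀ x ∈ shapes, ShpOK x) : LineP famC 83461 2193906 :=
  lineP_of_check c14 (cellsOK2 hT hS k14)

/-- line 15 -/
def l15 : Ln3 := ⟨93717, 2081424, false, 875244, 124753, [], some ⟨1000000, 260909, 2210621, [⟨28, false, 180170⟩, ⟨29, false, 819830⟩], [⟨14, false, 7164491⟩], ⟨344266887932000000, 22905944484000000, 207418438515000000, 1591835682258000000, 104750481161000000, 2308092214841000000⟩⟩, none⟩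

/-- witnesses -/
def w15 : List Wk := []

theorem c15 : lineChk3 famC l15 = true := by decide +kernel

theorem k15 : cellsChk2 shapes l15.cs w15 = true := by decide +kernel

theorem p15 (hT : T3P Cert3P) (hS : ∀ x ∈ shapes, ShpOK x) : LineP famC 93717 2081424 :=
  lineP_of_check c15 (cellsOK2 hT hS k15)

/-- line 16 -/
def l16 : Ln3 := ⟨103195, 1989142, false, 863184, 136813, [], some ⟨934818, 278572, 1993004, [⟨31, false, 999815⟩, ⟨32, false, 185⟩], [⟨15, false, 8325857⟩], ⟨340356073559000000, 26058412865000000, 218364186287000000, 1486650656800000000, 112734442687000000, 2238558024194000000⟩⟩, none⟩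

/-- witnesses -/
def w16 : List Wk := []

theorem c16 : lineChk3 famC l16 = true := by decide +kernel

theorem k16 : cellsChk2 shapes l16.cs w16 = true := by decide +kernel

theorem p16 (hT : T3P Cert3P) (hS : ∀ x ∈ shapes, ShpOK x) : LineP famC 103195 1989142 :=
  lineP_of_check c16 (cellsOK2 hT hS k16)

/-- line 17 -/
def l17 : Ln3 := ⟨112505, 1907814, false, 851592, 148405, [], some ⟨857168, 295126, 1751997, [⟨33, false, 999806⟩, ⟨34, false, 194⟩], [⟨16, false, 9257715⟩], ⟨335739019955000000, 29447771103000000, 225903966268000000, 1383848638119000000, 122531976005000000, 2160023733823000000⟩⟩, none⟩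

/-- witnesses -/
def w17 : List Wk := []

theorem c17 : lineChk3 famC l17 = true := by decide +kernel

theorem k17 : cellsChk2 shapes l17.cs w17 = true := by decide +kernel

theorem p17 (hT : T3P Cert3P) (hS : ∀ x ∈ shapes, ShpOK x) : LineP famC 112505 1907814 :=
  lineP_of_check c17 (cellsOK2 hT hS k17)

/-- line 18 -/
def l18 : Ln3 := ⟨121793, 1834386, false, 840285, 159712, [], some ⟨794369, 311734, 1561162, [⟨35, false, 1000000⟩], [⟨17, false, 10034069⟩], ⟨331382180918000000, 32849199875000000, 232761195848000000, 1295441900887000000, 132017539897000000, 2090103169656000000⟩⟩, none⟩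

/-- witnesses -/
def w18 : List Wk := []

theorem c18 : lineChk3 famC l18 = true := by decide +kernel

theorem k18 : cellsChk2 shapes l18.cs w18 = true := by decide +kernel

theorem p18 (hT : T3P Cert3P) (hS : ∀ x ∈ shapes, ShpOK x) : LineP famC 121793 1834386 :=
  lineP_of_check c18 (cellsOK2 hT hS k18)

/-- line 19 -/
def l19 : Ln3 := ⟨131055, 1767640, false, 829261, 170736, [], some ⟨681932, 317392, 1295053, [⟨36, false, 999910⟩, ⟨37, false, 90⟩], [⟨18, false, 10469706⟩], ⟨327532328268000000, 34858259438000000, 232374645551000000, 1183328331583000000, 139769660784000000, 2036830472723000000⟩⟩, none⟩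

/-- witnesses -/
def w19 : List Wk := []

theorem c19 : lineChk3 famC l19 = true := by decide +kernel

theorem k19 : cellsChk2 shapes l19.cs w19 = true := by decide +kernel

theorem p19 (hT : T3P Cert3P) (hS : ∀ x ∈ shapes, ShpOK x) : LineP famC 131055 1767640 :=
  lineP_of_check c19 (cellsOK2 hT hS k19)

/-- line 20 -/
def l20 : Ln3 := ⟨140609, 1704505, false, 818134, 181863, [], some ⟨753076, 356067, 1374678, [⟨38, false, 999741⟩, ⟨39, false, 259⟩], [⟨19, false, 11468783⟩], ⟨323034993707000000, 41122419354000000, 251097740766000000, 1181466090255000000, 151665222410000000, 1960954035350000000⟩⟩, none⟩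

/-- witnesses -/
def w20 : List Wk := []

theorem c20 : lineChk3 famC l20 = true := by decide +kernel

theorem k20 : cellsChk2 shapes l20.cs w20 = true := by decide +kernel

theorem p20 (hT : T3P Cert3P) (hS : ∀ x ∈ shapes, ShpOK x) : LineP famC 140609 1704505 :=
  lineP_of_check c20 (cellsOK2 hT hS k20)

/-- line 21 -/
def l21 : Ln3 := ⟨150201, 1646075, false, 807191, 192806, [], some ⟨680352, 366643, 1203216, [⟨40, false, 999919⟩, ⟨41, false, 81⟩], [⟨20, false, 11911641⟩], ⟨319398078540000000, 43779514990000000, 252787541047000000, 1102434957941000000, 159723974284000000, 1913107337820000000⟩⟩, none⟩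

/-- witnesses -/
def w21 : List Wk := []

theorem c21 : lineChk3 famC l21 = true := by decide +kernel

theorem k21 : cellsChk2 shapes l21.cs w21 = true := by decide +kernel

theorem p21 (hT : T3P Cert3P) (hS : ∀ x ∈ shapes, ShpOK x) : LineP famC 150201 1646075 :=
  lineP_of_check c21 (cellsOK2 hT hS k21)

/-- line 22 -/
def l22 : Ln3 := ⟨159772, 1592089, false, 796496, 203501, [], some ⟨625292, 378967, 1072773, [⟨41, false, 1000000⟩], [⟨21, false, 12464200⟩], ⟨315881017511000000, 46560808804000000, 254982932158000000, 1035750348493000000, 167718473258000000, 1868155908969000000⟩⟩, none⟩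

/-- witnesses -/
def w22 : List Wk := []

theorem c22 : lineChk3 famC l22 = true := by decide +kernel

theorem k22 : cellsChk2 shapes l22.cs w22 = true := by decide +kernel

theorem p22 (hT : T3P Cert3P) (hS : ∀ x ∈ shapes, ShpOK x) : LineP famC 159772 1592089 :=
  lineP_of_check c22 (cellsOK2 hT hS k22)

/-- line 23 -/
def l23 : Ln3 := ⟨169410, 1541545, false, 785946, 214051, [], some ⟨607150, 398604, 1010107, [⟨43, false, 1000000⟩], [⟨22, false, 13108605⟩], ⟨312290192592000000, 50499104376000000, 261405201291000000, 992992592352000000, 176624729343000000, 1820740827159000000⟩⟩, none⟩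

/-- witnesses -/
def w23 : List Wk := []

theorem c23 : lineChk3 famC l23 = true := by decide +kernel

theorem k23 : cellsChk2 shapes l23.cs w23 = true := by decide +kernel

theorem p23 (hT : T3P Cert3P) (hS : ∀ x ∈ shapes, ShpOK x) : LineP famC 169410 1541545 :=
  lineP_of_check c23 (cellsOK2 hT hS k23)

/-- line 24 -/
def l24 : Ln3 := ⟨186277, 1459040, false, 780162, 232460, [⟨767537, 231384, 267962, 1375749, 624251, 504407, 1518146, [⟨39, false, 40⟩, ⟨40, false, 999960⟩], [⟨12, false, 999992⟩, ⟨11, false, 8⟩], [⟨23, false, 7292313⟩]⟩, ⟨768612, 229451, 268258, 1374230, 625770, 503851, 1521838, [⟨40, false, 999967⟩, ⟨41, false, 33⟩], [⟨13, false, 20⟩, ⟨12, false, 999980⟩], [⟨23, false, 7262012⟩]⟩,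
    ⟨770545, 225955, 256550, 1399564, 600436, 503735, 1460231, [⟨38, false, 51⟩, ⟨39, false, 999949⟩], [⟨12, false, 999967⟩, ⟨11, false, 33⟩], [⟨23, false, 7285634⟩]⟩, ⟨774041, 219834, 250535, 1410705, 589295, 502304, 1433134, [⟨37, false, 3⟩, ⟨38, false, 999997⟩], [⟨13, false, 3⟩, ⟨12, false, 999997⟩], [⟨23, false, 7223789⟩]⟩], some ⟨576094, 410437, 933895, [⟨44, false, 1000000⟩], [⟨23, false, 6927786⟩], ⟨309239007701000000, 52004108097000000, 246740145567000000, 1042180934573000000, 191252127859000000, 1748265151136000000⟩⟩, none⟩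

/-- witnesses -/
def w24 : List Wk := [⟨2, -264569, -1463677, 606378, 54087, -312277, -2228282, 1358329, 3409819⟩, ⟨2, -263169, -1472066, 611349, 53771, -316136, -2211917, 1348161, 3433914⟩, ⟨2, -260658, -1487420, 620491, 53203, -323404, -2181940, 1421975, 3481195⟩,
    ⟨2, -256131, -1514883, 636985, 52183, -337183, -2128052, 1442215, 3563227⟩]

theorem c24 : lineChk3 famC l24 = true := by decide +kernel

theorem k24 : cellsChk2 shapes l24.cs w24 = true := by decide +kernel

theorem p24 (hT : T3P Cert3P) (hS : ∀ x ∈ shapes, ShpOK x) : LineP famC 186277 1459040 :=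
  lineP_of_check c24 (cellsOK2 hT hS k24)

/-- line 25 -/
def l25 : Ln3 := ⟨201015, 1391585, false, 766929, 248681, [⟨751316, 245778, 299132, 1249864, 750136, 512990, 1734015, [⟨43, false, 30⟩, ⟨44, false, 999970⟩], [⟨13, false, 999969⟩, ⟨12, false, 31⟩], [⟨24, false, 7218526⟩]⟩, ⟨754218, 241063, 281242, 1291397, 708603, 514756, 1638005, [⟨42, false, 1⟩, ⟨43, false, 999999⟩], [⟨13, false, 999995⟩, ⟨12, false, 5⟩], [⟨24, false, 7373670⟩]⟩,
    ⟨758933, 233067, 250102, 1364250, 635750, 517006, 1469598, [⟨41, false, 999981⟩, ⟨42, false, 19⟩], [⟨13, false, 999998⟩, ⟨12, false, 2⟩], [⟨24, false, 7584984⟩]⟩], some ⟨524365, 422433, 825241, [⟨45, false, 999932⟩, ⟨46, false, 68⟩], [⟨24, false, 7871949⟩], ⟨305734043862000000, 55665541425000000, 260906139841000000, 903020144712000000, 193388971856000000, 1738188387418000000⟩⟩, none⟩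

/-- witnesses -/
def w25 : List Wk := [⟨2, -285929, -1403327, 571119, 58965, -306528, -2253334, 1194698, 3519136⟩, ⟨2, -282074, -1422697, 582340, 58079, -315819, -2213271, 1295218, 3584555⟩, ⟨2, -275842, -1456430, 602097, 56652, -333207, -2143268, 1504656, 3702191⟩]

theorem c25 : lineChk3 famC l25 = true := by decide +kernel

theorem k25 : cellsChk2 shapes l25.cs w25 = true := by decide +kernel

theorem p25 (hT : T3P Cert3P) (hS : ∀ x ∈ shapes, ShpOK x) : LineP famC 201015 1391585 :=
  lineP_of_check c25 (cellsOK2 hT hS k25)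

/-- line 26 -/
def l26 : Ln3 := ⟨240814, 1220674, false, 773865, 295032, [⟨704965, 294116, 384658, 734288, 1265712, 443635, 2517686, [⟨56, true, 51⟩, ⟨55, true, 999949⟩], [⟨16, false, 999957⟩, ⟨15, false, 43⟩], []⟩, ⟨705880, 293240, 384645, 734314, 1265686, 443634, 2517625, [⟨56, true, 1674⟩, ⟨55, true, 998326⟩], [⟨17, false, 41⟩, ⟨16, false, 999959⟩], []⟩,
    ⟨706756, 292384, 379203, 742137, 1257863, 443134, 2502068, [⟨56, true, 504003⟩, ⟨55, true, 495997⟩], [⟨17, false, 2⟩, ⟨16, false, 999998⟩], []⟩, ⟨707612, 291547, 373923, 749766, 1250234, 442648, 2486894, [⟨56, true, 983628⟩, ⟨55, true, 16372⟩], [⟨16, false, 999991⟩, ⟨15, false, 9⟩], []⟩,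
    ⟨708449, 290730, 373758, 750029, 1249971, 442631, 2486369, [⟨57, true, 17⟩, ⟨56, true, 999983⟩], [⟨17, false, 9⟩, ⟨16, false, 999991⟩], []⟩, ⟨709266, 289913, 373600, 750221, 1249779, 442620, 2485987, [⟨57, true, 17638⟩, ⟨56, true, 982362⟩], [⟨17, false, 9⟩, ⟨16, false, 999991⟩], []⟩,
    ⟨710083, 289115, 368482, 757786, 1242214, 442166, 2470938, [⟨57, true, 707733⟩, ⟨56, true, 292267⟩], [⟨17, false, 21⟩, ⟨16, false, 999979⟩], []⟩, ⟨710881, 288317, 366277, 761039, 1238961, 441973, 2464466, [⟨57, true, 999950⟩, ⟨56, true, 50⟩], [⟨17, false, 34⟩, ⟨16, false, 999966⟩], []⟩,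
    ⟨711679, 287539, 366294, 761037, 1238963, 441972, 2464472, [⟨57, true, 999927⟩, ⟨56, true, 73⟩], [⟨17, false, 14⟩, ⟨16, false, 999986⟩], []⟩, ⟨712457, 286741, 385671, 808828, 1191172, 460055, 2452019, [⟨58, false, 999990⟩, ⟨57, true, 10⟩], [⟨16, false, 248491⟩, ⟨15, false, 751509⟩], []⟩,
    ⟨713255, 285885, 393549, 821376, 1178624, 465933, 2453216, [⟨57, false, 130650⟩, ⟨58, false, 869350⟩], [⟨16, false, 3⟩, ⟨15, false, 999997⟩], []⟩, ⟨714111, 284951, 387201, 830428, 1169572, 465252, 2434377, [⟨57, false, 727549⟩, ⟨58, false, 272451⟩], [⟨15, false, 999987⟩, ⟨14, false, 13⟩], []⟩,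
    ⟨715045, 283900, 384595, 836281, 1163719, 465858, 2422193, [⟨57, false, 999986⟩, ⟨58, false, 14⟩], [⟨15, false, 999998⟩, ⟨14, false, 2⟩], [⟨25, false, 17046⟩]⟩, ⟨716096, 282751, 377969, 854648, 1145352, 468693, 2383964, [⟨56, false, 974581⟩, ⟨57, false, 25419⟩], [⟨15, false, 999994⟩, ⟨14, false, 6⟩], [⟨25, false, 85121⟩]⟩,
    ⟨717245, 281466, 377581, 854055, 1145945, 468175, 2385197, [⟨55, false, 2⟩, ⟨56, false, 999998⟩], [⟨16, false, 5⟩, ⟨15, false, 999995⟩], [⟨25, false, 75852⟩]⟩, ⟨718530, 280024, 367476, 882552, 1117448, 472552, 2325885, [⟨55, false, 999990⟩, ⟨56, false, 10⟩], [⟨15, false, 999985⟩, ⟨14, false, 15⟩], [⟨25, false, 179864⟩]⟩,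
    ⟨719972, 278367, 367224, 881212, 1118788, 471834, 2328673, [⟨54, false, 50⟩, ⟨55, false, 999950⟩], [⟨15, false, 999994⟩, ⟨14, false, 6⟩], [⟨25, false, 166506⟩]⟩, ⟨721629, 276436, 359721, 901290, 1098710, 474542, 2286878, [⟨54, false, 999976⟩, ⟨55, false, 24⟩], [⟨16, false, 34⟩, ⟨15, false, 999966⟩], [⟨25, false, 232678⟩]⟩,
    ⟨723560, 274174, 354459, 914045, 1085955, 475849, 2260337, [⟨52, false, 68⟩, ⟨53, false, 999932⟩], [⟨15, false, 999966⟩, ⟨14, false, 34⟩], [⟨25, false, 267304⟩]⟩, ⟨725822, 272006, 340780, 953682, 1046318, 480986, 2177831, [⟨52, false, 999981⟩, ⟨53, false, 19⟩], [⟨16, false, 5⟩, ⟨15, false, 999995⟩], [⟨25, false, 385821⟩]⟩,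
    ⟨727990, 268846, 334714, 967136, 1032864, 482364, 2149828, [⟨51, false, 999985⟩, ⟨52, false, 15⟩], [⟨15, false, 1000000⟩], [⟨25, false, 425467⟩]⟩, ⟨731150, 265631, 318762, 1012847, 987153, 487436, 2054684, [⟨49, false, 143⟩, ⟨50, false, 999857⟩], [⟨15, false, 1000000⟩], [⟨25, false, 541791⟩]⟩,
    ⟨734365, 261291, 324122, 1122584, 877416, 513638, 1924971, [⟨47, false, 47⟩, ⟨48, false, 999953⟩], [⟨14, false, 999974⟩, ⟨13, false, 26⟩], [⟨25, false, 683202⟩]⟩, ⟨738705, 255264, 298193, 1187350, 812650, 518827, 1782878, [⟨46, false, 999991⟩, ⟨47, false, 9⟩], [⟨14, false, 999997⟩, ⟨13, false, 3⟩], [⟨25, false, 834658⟩]⟩,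
    ⟨744732, 246127, 261772, 1278657, 721343, 524808, 1582560, [⟨43, false, 10⟩, ⟨44, false, 999990⟩], [⟨14, false, 999986⟩, ⟨13, false, 14⟩], [⟨25, false, 1013835⟩]⟩, ⟨753869, 226131, 222015, 1523491, 476509, 558576, 1158843, [⟨40, false, 999989⟩, ⟨41, false, 11⟩], [⟨13, false, 29⟩, ⟨12, false, 999971⟩], [⟨25, false, 1377631⟩]⟩], some ⟨501636, 422432, 776640, [⟨45, false, 1000000⟩], [⟨25, false, 1528206⟩], ⟨303784159290000000, 53408039037000000, 212089347269000000, 1151455120079000000, 224597360942000000, 1603643717815000000⟩⟩, none⟩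

/-- witnesses -/
def w26 : List Wk := [⟨2, -349608, -1223782, 471506, 73991, -257542, -2504426, 667380, 4026839⟩, ⟨2, -348311, -1226764, 473096, 73678, -259185, -2494681, 664950, 4036705⟩, ⟨2, -347070, -1229688, 474656, 73378, -257455, -2504976, 679250, 4079027⟩,
    ⟨2, -345860, -1232555, 476188, 73086, -255758, -2515180, 693496, 4121122⟩, ⟨2, -344678, -1235361, 477690, 72802, -257215, -2506420, 691674, 4131458⟩, ⟨2, -343525, -1238175, 479197, 72524, -258678, -2497732, 689828, 4141984⟩,
    ⟨2, -342374, -1240931, 480676, 72247, -257020, -2507622, 704095, 4183385⟩, ⟨2, -341251, -1243695, 482161, 71977, -257173, -2506712, 709041, 4206897⟩, ⟨2, -340129, -1246397, 483614, 71708, -258718, -2497522, 706675, 4215848⟩,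
    ⟨2, -339036, -1249176, 485111, 71446, -260861, -2484792, 711026, 3858168⟩, ⟨2, -337917, -1252166, 486723, 71177, -263623, -2468799, 705267, 3750062⟩, ⟨2, -336717, -1255439, 488490, 70890, -261699, -2479903, 722156, 3792156⟩,
    ⟨2, -335410, -1259134, 490489, 70578, -262910, -2472913, 729331, 3809926⟩, ⟨2, -333942, -1263189, 492687, 70226, -264508, -2463761, 755096, 3827817⟩, ⟨2, -332338, -1267744, 495160, 69844, -266264, -2453846, 751720, 3847559⟩,
    ⟨2, -330548, -1272880, 497955, 69417, -268354, -2442179, 793864, 3870667⟩, ⟨2, -328543, -1278815, 501192, 68940, -270776, -2428860, 788391, 3896050⟩, ⟨2, -326245, -1285776, 505001, 68393, -273669, -2413207, 817416, 3927197⟩,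
    ⟨2, -323572, -1293993, 509511, 67759, -277075, -2395167, 834397, 3964403⟩, ⟨2, -320451, -1301932, 513886, 67020, -281013, -2374760, 896791, 3997403⟩, ⟨2, -317468, -1313617, 520353, 66316, -285856, -2350345, 917305, 4053574⟩,
    ⟨2, -313137, -1325648, 527046, 65296, -292077, -2319985, 994974, 4105312⟩, ⟨2, -308750, -1342121, 536269, 64266, -299759, -2283818, 1069344, 3633196⟩, ⟨2, -302857, -1365457, 549448, 62889, -311202, -2232962, 1205922, 3721210⟩,
    ⟨2, -294731, -1401908, 570301, 60999, -330712, -2152985, 1439650, 3863120⟩, ⟨2, -282537, -1486641, 620026, 58185, -377276, -1989435, 1938800, 3190766⟩]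

theorem c26 : lineChk3 famC l26 = true := by decide +kernel

theorem k26 : cellsChk2 shapes l26.cs w26 = true := by decide +kernel

theorem p26 (hT : T3P Cert3P) (hS : ∀ x ∈ shapes, ShpOK x) : LineP famC 240814 1220674 :=
  lineP_of_check c26 (cellsOK2 hT hS k26)

end Pool.Agent.H56.RM.D4
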